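import Pool.Agent.helper69.DH.SpecR2

/-!
# MP_5823cb_al, project d2, part R: row rBRN, points along branches (helper77)
-/

set_option autoImplicit false

open Filter Topology MeasureTheory
open scoped commutatorElement

namespace Pool.Agent.helper90.DH

open Pool.Agent.helper64.D2

theorem rBRN_lip (f : ℝ → ℝ) (u v D : ℝ) (h : |f u - f v - (u - v)| ≤ |u - v| / 2 ^ 27) (hD : |u - v| ≤ D) :
    |f u - f v| ≤ D + D / 2 ^ 27 := by
  have e : f u - f v = (f u - f v - (u - v)) + (u - v) := by ring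
  have h1 : |u - v| / 2 ^ 27 ≤ D / 2 ^ 27 := div_le_div_of_nonneg_right hD (by positivity)
  have h2 := abs_add_le (f u - f v - (u - v)) (u - v)
  rw [← e] at h2
  linarith

theorem rBRN (hB : rBAS_stmt) : rBRN_stmt := by
  intro P S hP
  have hP' := hP
  obtain ⟨⟨-, hell, hls, -, -, -, -, -⟩, -, hM, -⟩ := hP
  refine ⟨?_, ?_, ?_, ?_, ?_, ?_⟩
  · intro n hn
    exact ⟨hP'.1, hP'.2.1, fun s h1 h2 i hi => hP'.2.2.1 s h1 (h2.trans hn) i hi,
      fun s h1 h2 => hP'.2.2.2 s h1 (h2.trans hn)⟩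
  · intro s r k x h0 hsr hrS hk
    obtain ⟨⟨h1, -⟩, -⟩ := hM s h0 (hsr.trans hrS) k hk
    obtain ⟨-, h2⟩ := hM r (h0.trans hsr) hrS k hk
    have h3 := (h2 s h0 hsr x).2
    obtain ⟨E, hE⟩ : ∃ E : ℝ, E = 1 / 2 ^ s := ⟨_, rfl⟩
    have hE0 : 0 < E := by
      rw [hE]
      positivity
    obtain ⟨a1, a2, -⟩ := hB.1 s x
    have h4 : |rlp s (ci s x) - x| ≤ E := by
      rw [hE, abs_le]
      constructor <;> linarith
    have h5 := rBRN_lip _ _ _ E (h1 (rlp s (ci s x)) x).2 h4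
    have e1 : (1 : ℝ) / 2 ^ 27 / 2 ^ s = E / 2 ^ 27 := by
      rw [hE]
      ring
    have e2 : (5 : ℝ) / 4 / 2 ^ s = 5 / 4 * E := by
      rw [hE]
      ring
    rw [e1] at h3
    rw [e2]
    unfold rpt
    have e3 : ev (P.cm s k)⁻¹ (rlp s (ci s x)) - ev (P.cm r k)⁻¹ x =
        (ev (P.cm s k)⁻¹ (rlp s (ci s x)) - ev (P.cm s k)⁻¹ x) - (ev (P.cm r k)⁻¹ x - ev (P.cm s k)⁻¹ x) := by ring
    have h6 := abs_sub (ev (P.cm s k)⁻¹ (rlp s (ci s x)) - ev (P.cm s k)⁻¹ x) (ev (P.cm r k)⁻¹ x - ev (P.cm s k)⁻¹ x)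
    rw [← e3] at h6
    have h7 : E / 2 ^ 27 ≤ E / 8 := by
      refine div_le_div_of_nonneg_left hE0.le (by norm_num) (by norm_num)
    linarith
  · intro s i z X h0 hsS hi hX
    obtain ⟨⟨h1, -⟩, -⟩ := hM s h0 hsS i hi
    obtain ⟨E, hE⟩ : ∃ E : ℝ, E = 1 / 2 ^ s := ⟨_, rfl⟩
    have hE0 : 0 < E := by
      rw [hE]
      positivity
    have hp : (0 : ℝ) < 2 ^ s := by positivity
    have e1 : (1 : ℝ) / 2 ^ 27 / 2 ^ s = E / 2 ^ 27 := by
      rw [hE]
      ring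
    have e2 : (5 : ℝ) / 4 / 2 ^ s = 5 / 4 * E := by
      rw [hE]
      ring
    have e3 : (9 : ℝ) / 4 / 2 ^ 27 / 2 ^ s = 9 / 4 * (E / 2 ^ 27) := by
      rw [hE]
      ring
    have e4 : (9 : ℝ) / 4 / 2 ^ s = 9 / 4 * E := by
      rw [hE]
      ring
    have h7 : E / 2 ^ 27 ≤ E / 100 := by
      refine div_le_div_of_nonneg_left hE0.le (by norm_num) (by norm_num)
    have hG0 : 0 < E / 2 ^ 27 := by positivity
    obtain ⟨G, hG⟩ : ∃ G : ℝ, G = E / 2 ^ 27 := ⟨_, rfl⟩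
    have h8 : G / 2 ^ 27 ≤ G / 100 := by
      refine div_le_div_of_nonneg_left (by rw [hG]; exact hG0.le) (by norm_num) (by norm_num)
    rw [e1, ← hG] at hX
    rw [e2, e3, e4, ← hG]
    rw [← hG] at h7 hG0
    obtain ⟨a1, a2, -⟩ := hB.1 s X
    have hlp : rlp s (ci s X) - X = - (fr s X / 2 ^ s) := by
      unfold rlp ci fr Int.fract
      field_simp
      ring
    have h4 : |rlp s (ci s X) - X| ≤ E := by
      rw [hE, abs_le]
      constructor <;> linarith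
    have hC : ev (P.cm s i)⁻¹ (ev (P.cm s i) z) = z := ev_inv _ _
    have h9 := rBRN_lip (ev (P.cm s i)⁻¹) X (ev (P.cm s i) z) G (h1 X (ev (P.cm s i) z)).2 hX
    rw [hC] at h9
    have h10 := (h1 (rlp s (ci s X)) X).2
    have h11 : |rlp s (ci s X) - X| / 2 ^ 27 ≤ G := by
      rw [hG]
      exact div_le_div_of_nonneg_right h4 (by positivity)
    have hfr0 : 0 ≤ fr s X / 2 ^ s := div_nonneg (Int.fract_nonneg _) hp.le
    have hfr1 : fr s X / 2 ^ s ≤ E := by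
      rw [hE]
      exact div_le_div_of_nonneg_right (Int.fract_lt_one _).le hp.le
    have h12 : |rpt P s i (ci s X) - z + fr s X / 2 ^ s| ≤ 9 / 4 * G := by
      unfold rpt
      have e5 : ev (P.cm s i)⁻¹ (rlp s (ci s X)) - z + fr s X / 2 ^ s =
          (ev (P.cm s i)⁻¹ (rlp s (ci s X)) - ev (P.cm s i)⁻¹ X - (rlp s (ci s X) - X)) + (ev (P.cm s i)⁻¹ X - z) := by
        rw [hlp]
        ring
      have h13 := abs_add_le (ev (P.cm s i)⁻¹ (rlp s (ci s X)) - ev (P.cm s i)⁻¹ X - (rlp s (ci s X) - X)) (ev (P.cm s i)⁻¹ X - z)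
      rw [← e5] at h13
      linarith
    refine ⟨h12, ?_, ?_⟩
    · obtain ⟨b1, b2⟩ := abs_le.1 h12
      rw [abs_le]
      constructor <;> linarith
    · unfold rcc
      obtain ⟨c1, c2, -⟩ := hB.1 s z
      have h14 : |rlp s (ci s z) - z| ≤ E := by
        rw [hE, abs_le]
        constructor <;> linarith
      have h15 := rBRN_lip (ev (P.cm s i)) _ _ E (h1 (rlp s (ci s z)) z).1 h14
      obtain ⟨d1, d2, -⟩ := hB.1 s (ev (P.cm s i) (rlp s (ci s z)))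
      rw [← hE] at d2
      obtain ⟨f1, f2⟩ := abs_le.1 h15
      have h16 : |ev (P.cm s i) (rlp s (ci s z)) - ev (P.cm s i) z - (rlp s (ci s z) - z)| ≤ G := by
        refine (h1 (rlp s (ci s z)) z).1.trans ?_
        rw [hG]
        exact div_le_div_of_nonneg_right h14 (by positivity)
      obtain ⟨g1, g2⟩ := abs_le.1 h16
      obtain ⟨x1, x2⟩ := abs_le.1 hX
      rw [← hG] at f1 f2
      rw [abs_le]
      constructor <;> linarith
  · intro s k x b h0 hsS hk hb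
    obtain ⟨⟨h1, -⟩, -⟩ := hM s h0 hsS k hk
    obtain ⟨E, hE⟩ : ∃ E : ℝ, E = 1 / 2 ^ s := ⟨_, rfl⟩
    have hE0 : 0 < E := by
      rw [hE]
      positivity
    have e1 : (3 : ℝ) / 2 ^ s = 3 * E := by
      rw [hE]
      ring
    have e2 : (5 : ℝ) / 2 ^ s = 5 * E := by
      rw [hE]
      ring
    rw [e1] at hb
    rw [e2]
    have h2 := rBRN_lip (ev (P.cm s k)⁻¹) _ _ (3 * E) (h1 (rlp s b) x).2 hb
    unfold rbb
    obtain ⟨d1, d2, -⟩ := hB.1 s (ev (P.cm s k)⁻¹ (rlp s b))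
    rw [← hE] at d2
    have h3 : 3 * E / 2 ^ 27 ≤ 3 * E / 100 := by
      refine div_le_div_of_nonneg_left (by positivity) (by norm_num) (by norm_num)
    obtain ⟨f1, f2⟩ := abs_le.1 h2
    rw [abs_le]
    constructor <;> linarith
  · intro s k n
    unfold rbb rpt
    obtain ⟨d1, d2, -⟩ := hB.1 s (ev (P.cm s k)⁻¹ (rlp s n))
    have hE0 : (0 : ℝ) < 1 / 2 ^ s := by positivity
    rw [abs_le]
    constructor <;> linarith
  · intro s k x h0 hsS hk
    obtain ⟨⟨-, h1⟩, -⟩ := hM s h0 hsS k hk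
    have h2 : (1 : ℝ) / 2 ^ (P.ell + 1) ≤ 1 / 4 := by
      refine one_div_le_one_div_of_le (by norm_num) ?_
      calc (4 : ℝ) = 2 ^ 2 := by norm_num
        _ ≤ 2 ^ (P.ell + 1) := pow_le_pow_right₀ (by norm_num) (by omega)
    exact ⟨(h1 x).2.trans h2, (h1 x).1.trans h2⟩

end Pool.Agent.helper90.DH
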