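import Pool.Agent.helper69.DH.SpecR

/-!
# MP_5823cb_al, project d2, part R: row rGEO, points and cells under the maps (helper77)
-/

set_option autoImplicit false

open Filter Topology MeasureTheory
open scoped commutatorElement

namespace Pool.Agent.helper90.DH

open Pool.Agent.helper64.D2

/-- cells of two near points. -/
theorem rGEO_cell (hB : rBAS_stmt) (s t : ℕ) (hts : t ≤ s) (X Y D : ℝ) (h : |X - Y| ≤ D / 2 ^ t) :
    |rlp s (ci s X) - rlp t (ci t Y)| ≤ (D + 1) / 2 ^ t := by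
  obtain ⟨h1, h2, -⟩ := hB.1 s X
  obtain ⟨h3, h4, -⟩ := hB.1 t Y
  have h5 : (1 : ℝ) / 2 ^ s ≤ 1 / 2 ^ t := one_div_le_one_div_of_le (by positivity) (pow_le_pow_right₀ (by norm_num) hts)
  have h6 : (D + 1) / (2 : ℝ) ^ t = D / 2 ^ t + 1 / 2 ^ t := by ring
  rw [h6]
  rw [abs_le] at h ⊢
  constructor <;> linarith [h.1, h.2]

/-- two maps, two near points. -/
theorem rGEO_map (fs ft : ℝ → ℝ) (t : ℕ) (ρ u v : ℝ) (h1 : |fs u - fs v - (u - v)| ≤ |u - v| / 2 ^ 27)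
    (h2 : |fs v - ft v| ≤ 1 / 2 ^ 27 / 2 ^ t) (h3 : |u - v| ≤ ρ / 2 ^ t) : |fs u - ft v| ≤ (ρ + (ρ + 1) / 2 ^ 27) / 2 ^ t := by
  have e : fs u - ft v = (fs u - fs v - (u - v)) + (u - v) + (fs v - ft v) := by ring
  have h4 : |u - v| / 2 ^ 27 ≤ ρ / 2 ^ t / 2 ^ 27 := div_le_div_of_nonneg_right h3 (by positivity)
  calc |fs u - ft v| = |(fs u - fs v - (u - v)) + (u - v) + (fs v - ft v)| := by rw [e]
    _ ≤ |(fs u - fs v - (u - v)) + (u - v)| + |fs v - ft v| := abs_add_le _ _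
    _ ≤ |fs u - fs v - (u - v)| + |u - v| + |fs v - ft v| := by
        have := abs_add_le (fs u - fs v - (u - v)) (u - v)
        linarith
    _ ≤ ρ / 2 ^ t / 2 ^ 27 + ρ / 2 ^ t + 1 / 2 ^ 27 / 2 ^ t := by linarith
    _ = (ρ + (ρ + 1) / 2 ^ 27) / 2 ^ t := by ring

/-- the window moves by at most one. -/
theorem rGEO_win (hB : rBAS_stmt) (ell s : ℕ) (hl : ell ≤ s) (f : ℝ → ℝ) (hf : ∀ x, |f x - x| ≤ 1 / 2 ^ (ell + 1)) (m : ℤ) :
    |ci s (f (rlp s m)) / 2 ^ (s - ell) - m / 2 ^ (s - ell)| ≤ 1 := by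
  have h1 := hB.2.1 s ell (f (rlp s m)) hl
  have h2 := hB.2.1 s ell (rlp s m) hl
  have h3 : ci s (rlp s m) = m := (hB.2.2.2.2.1 s m).1
  rw [h3] at h2
  rw [← h1, ← h2]
  unfold ci
  have h4 := hf (rlp s m)
  have hp : (0 : ℝ) < 2 ^ ell := by positivity
  have h5 : |(2 : ℝ) ^ ell * f (rlp s m) - 2 ^ ell * rlp s m| ≤ 1 / 2 := by
    rw [← mul_sub, abs_mul, abs_of_pos hp]
    calc (2 : ℝ) ^ ell * |f (rlp s m) - rlp s m| ≤ 2 ^ ell * (1 / 2 ^ (ell + 1)) := mul_le_mul_of_nonneg_left h4 hp.le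
      _ = 1 / 2 := by
        rw [pow_succ]
        field_simp
  obtain ⟨h6, h7⟩ := abs_le.1 h5
  have a1 := Int.floor_le ((2 : ℝ) ^ ell * f (rlp s m))
  have a2 := Int.lt_floor_add_one ((2 : ℝ) ^ ell * f (rlp s m))
  have b1 := Int.floor_le ((2 : ℝ) ^ ell * rlp s m)
  have b2 := Int.lt_floor_add_one ((2 : ℝ) ^ ell * rlp s m)
  have c1 : ⌊(2 : ℝ) ^ ell * f (rlp s m)⌋ < ⌊(2 : ℝ) ^ ell * rlp s m⌋ + 2 := by
    have : ((⌊(2 : ℝ) ^ ell * f (rlp s m)⌋ : ℤ) : ℝ) < ((⌊(2 : ℝ) ^ ell * rlp s m⌋ + 2 : ℤ) : ℝ) := by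
      push_cast
      linarith
    exact_mod_cast this
  have c2 : ⌊(2 : ℝ) ^ ell * rlp s m⌋ < ⌊(2 : ℝ) ^ ell * f (rlp s m)⌋ + 2 := by
    have : ((⌊(2 : ℝ) ^ ell * rlp s m⌋ : ℤ) : ℝ) < ((⌊(2 : ℝ) ^ ell * f (rlp s m)⌋ + 2 : ℤ) : ℝ) := by
      push_cast
      linarith
    exact_mod_cast this
  rw [abs_le]
  constructor <;> omega

theorem rGEO (hB : rBAS_stmt) : rGEO_stmt := by
  intro P S hP
  obtain ⟨⟨-, hell, hls, -, -, -, -, -⟩, -, hM, -⟩ := hP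
  refine ⟨?_, ?_⟩
  · intro s t i m m' ρ h0 hts hsS hi hρ hd
    obtain ⟨⟨h1, -⟩, h2⟩ := hM s (h0.trans hts) hsS i hi
    have h3 := h2 t h0 hts (rlp t m')
    have h4 := h1 (rlp s m) (rlp t m')
    have e : (ρ + (ρ + 1) / 2 ^ 27 + 1) / 2 ^ t = (ρ + 1 + (ρ + 1) / 2 ^ 27) / (2 : ℝ) ^ t := by ring
    constructor
    · have h5 := rGEO_map (ev (P.cm s i)) (ev (P.cm t i)) t ρ (rlp s m) (rlp t m') h4.1 h3.1 hd
      have h6 := rGEO_cell hB s t hts _ _ _ h5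
      rw [e] at h6
      exact h6
    · have h5 := rGEO_map (ev (P.cm s i)⁻¹) (ev (P.cm t i)⁻¹) t ρ (rlp s m) (rlp t m') h4.2 h3.2 hd
      have h6 := rGEO_cell hB s t hts _ _ _ h5
      rw [e] at h6
      exact h6
  · intro s i h0 hsS hi
    obtain ⟨⟨h1, h1'⟩, -⟩ := hM s h0 hsS i hi
    have hp : (0 : ℝ) < 2 ^ s := by positivity
    refine ⟨?_, ?_, ?_, ?_⟩
    · intro n
      obtain ⟨x, hx⟩ : ∃ x, x = ev (P.cm s i)⁻¹ (rlp s n) := ⟨_, rfl⟩
      have hCx : ev (P.cm s i) x = rlp s n := by rw [hx, ev_inv']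
      obtain ⟨a1, a2, -⟩ := hB.1 s x
      have hbb : rbb P s i n = ci s x := by rw [hx]; rfl
      rw [hbb]
      unfold rcc
      obtain ⟨b1, b2, -⟩ := hB.1 s (ev (P.cm s i) (rlp s (ci s x)))
      have h2 := (h1 (rlp s (ci s x)) x).1
      rw [hCx] at h2
      have h3 : |rlp s (ci s x) - x| ≤ 1 / 2 ^ s := by
        rw [abs_le]
        constructor <;> linarith
      have h4 : |rlp s (ci s x) - x| / 2 ^ 27 ≤ 1 / 2 ^ s / 2 ^ 27 := div_le_div_of_nonneg_right h3 (by positivity)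
      have h5 := abs_le.1 (h2.trans h4)
      obtain ⟨k, hk⟩ : ∃ k, k = ci s (ev (P.cm s i) (rlp s (ci s x))) := ⟨_, rfl⟩
      rw [← hk] at b1 b2 ⊢
      have h6 : (1 : ℝ) / 2 ^ s / 2 ^ 27 ≤ 1 / 2 / 2 ^ s := by
        rw [div_div, div_div]
        refine one_div_le_one_div_of_le (by positivity) ?_
        nlinarith
      have h7 : rlp s k < rlp s n + 1 / 2 ^ s := by
        have : (1 : ℝ) / 2 / 2 ^ s < 1 / 2 ^ s := by
          refine div_lt_div_of_pos_right (by norm_num) hp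
        linarith [h5.1, h5.2]
      have h8 : rlp s n < rlp s k + 3 / 2 ^ s := by
        have : (1 : ℝ) / 2 ^ s + 1 / 2 ^ s + 1 / 2 / 2 ^ s < 3 / 2 ^ s := by
          rw [← add_div, ← add_div]
          exact div_lt_div_of_pos_right (by norm_num) hp
        linarith [h5.1, h5.2]
      unfold rlp at h7 h8
      rw [← add_div, div_lt_div_iff_of_pos_right hp] at h7 h8
      have h9 : k < n + 1 := by exact_mod_cast h7
      have h10 : n < k + 3 := by exact_mod_cast h8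
      rw [abs_le]
      constructor <;> omega
    · intro n n' hnn
      unfold rbb at hnn
      obtain ⟨a1, a2, -⟩ := hB.1 s (ev (P.cm s i)⁻¹ (rlp s n))
      obtain ⟨b1, b2, -⟩ := hB.1 s (ev (P.cm s i)⁻¹ (rlp s n'))
      rw [hnn] at a1 a2
      have h2 := (h1 (rlp s n) (rlp s n')).2
      have h3 : |ev (P.cm s i)⁻¹ (rlp s n) - ev (P.cm s i)⁻¹ (rlp s n')| < 1 / 2 ^ s := by
        rw [abs_lt]
        constructor <;> linarith
      have h4 : |rlp s n - rlp s n'| * (1 - 1 / 2 ^ 27) < 1 / 2 ^ s := by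
        have e : rlp s n - rlp s n' = (ev (P.cm s i)⁻¹ (rlp s n) - ev (P.cm s i)⁻¹ (rlp s n')) -
            (ev (P.cm s i)⁻¹ (rlp s n) - ev (P.cm s i)⁻¹ (rlp s n') - (rlp s n - rlp s n')) := by ring
        have h5 := abs_sub (ev (P.cm s i)⁻¹ (rlp s n) - ev (P.cm s i)⁻¹ (rlp s n'))
          (ev (P.cm s i)⁻¹ (rlp s n) - ev (P.cm s i)⁻¹ (rlp s n') - (rlp s n - rlp s n'))
        rw [← e] at h5
        linarith
      have h5 : |rlp s n - rlp s n'| = |(n : ℝ) - n'| / 2 ^ s := by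
        unfold rlp
        rw [← sub_div, abs_div, abs_of_pos hp]
      rw [h5, div_mul_eq_mul_div, div_lt_div_iff_of_pos_right hp] at h4
      have h6 : |(n : ℝ) - n'| < 2 := by
        nlinarith [abs_nonneg ((n : ℝ) - n')]
      have h7 : |n - n'| < 2 := by exact_mod_cast h6
      omega
    · intro m
      exact ⟨rGEO_win hB P.ell s (hls.trans h0) _ (fun x => (h1' x).1) m, rGEO_win hB P.ell s (hls.trans h0) _ (fun x => (h1' x).2) m⟩
    · intro m hm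
      have hr := hB.2.2.2.2.2.2.2.2.2 s
      have h2 : (1 : ℝ) / 2 ^ (P.ell + 1) ≤ 1 / 4 := by
        refine one_div_le_one_div_of_le (by norm_num) ?_
        calc (4 : ℝ) = 2 ^ 2 := by norm_num
          _ ≤ 2 ^ (P.ell + 1) := pow_le_pow_right₀ (by norm_num) (by omega)
      obtain ⟨c1, c2⟩ := h1' (rlp s m)
      obtain ⟨m1, m2⟩ := abs_le.1 hm
      obtain ⟨d1, d2⟩ := abs_le.1 (c1.trans h2)
      obtain ⟨e1, e2⟩ := abs_le.1 (c2.trans h2)
      refine ⟨hr _ (by linarith) (by linarith), hr _ (by linarith) (by linarith), ?_⟩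
      have h3 := hr (rlp s m) (by linarith) (by linarith)
      rw [(hB.2.2.2.2.1 s m).1] at h3
      exact h3

end Pool.Agent.helper90.DH
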